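import Pool.Agent.MP_26cd3b_lc.H27.Real

/-!
A certificate, written with real numbers only, for the cone over a treetope with a given graph.
-/

set_option autoImplicit false

namespace Pool.Agent.MP_26cd3b_lc.H89

open Pool.Agent.MP_26cd3b_lc.H27 Finset

/-- a sequence read as a vector -/
def vec (k : ℕ) : (ℕ → ℝ) →ₗ[ℝ] ℝ × (Fin k → ℝ) where
  toFun u := (u 0, fun i => u (i + 1))
  map_add' _ _ := rfl
  map_smul' _ _ := rfl

/-- the inner product of the first `k + 1` entries -/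
def dot (k : ℕ) (w u : ℕ → ℝ) : ℝ := ∑ j ∈ range (k + 1), w j * u j

/-- a sequence read as a functional -/
def lf (k : ℕ) (w : ℕ → ℝ) : (ℝ × (Fin k → ℝ)) →ₗ[ℝ] ℝ where
  toFun z := ∑ i : Fin k, w (i + 1) * z.2 i + w 0 * z.1
  map_add' a b := by simp only [Prod.snd_add, Pi.add_apply, Prod.fst_add, mul_add, sum_add_distrib]; ring
  map_smul' c a := by
    simp only [Prod.smul_snd, Pi.smul_apply, smul_eq_mul, Prod.smul_fst, RingHom.id_apply, mul_add,
      mul_sum]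
    congr 1
    · exact sum_congr rfl fun _ _ => by ring
    · ring

theorem lf_vec (k : ℕ) (w u : ℕ → ℝ) : lf k w (vec k u) = dot k w u := by
  rw [dot, sum_range_succ', sum_range fun j => w (j + 1) * u (j + 1)]
  rfl

theorem vec_eq {k : ℕ} {u v : ℕ → ℝ} : vec k u = vec k v ↔ ∀ j < k + 1, u j = v j := by
  constructor
  · intro h j hj
    cases j with
    | zero => exact congrArg Prod.fst h
    | succ j => exact congrFun (congrArg Prod.snd h) ⟨j, by omega⟩
  · intro h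
    exact Prod.ext (h 0 (by omega)) (funext fun i => h _ (by omega))

theorem vec_surj {k : ℕ} (z : ℝ × (Fin k → ℝ)) : ∃ u, vec k u = z :=
  ⟨fun j => Nat.casesOn j z.1 fun j => if h : j < k then z.2 ⟨j, h⟩ else 0,
    Prod.ext rfl (funext fun i => by simp [vec])⟩

theorem vec_basis (k : ℕ) (u : ℕ → ℝ) :
    vec k u = ∑ j ∈ range (k + 1), u j • vec k (fun i => if i = j then 1 else 0) := by
  simp only [← map_smul, ← map_sum]
  refine vec_eq.2 fun j hj => ?_
  simp [Finset.sum_apply, hj]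

theorem lf_surj {k : ℕ} (φ : (ℝ × (Fin k → ℝ)) →ₗ[ℝ] ℝ) : ∃ w, ∀ u, φ (vec k u) = dot k w u :=
  ⟨fun j => φ (vec k fun i => if i = j then 1 else 0), fun u => by
    rw [vec_basis, map_sum, dot]
    exact sum_congr rfl fun j _ => by rw [map_smul, smul_eq_mul, mul_comm]⟩

/-- the certificate -/
structure Cert {n : ℕ} (k : ℕ) (G : SimpleGraph (Fin n)) (v : ℕ → ℕ → ℕ → ℕ → ℝ) : Prop where
  one : ∀ a : Fin n, v 0 a 0 0 = 1
  f0 : ∀ a b x : Fin n, (a = b ∨ G.Adj a b) → (x = a ∨ x = b) → dot k (v 1 a b) (v 0 x 0) = 0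
  f1 : ∀ a b x : Fin n, (a = b ∨ G.Adj a b) → ¬ (x = a ∨ x = b) → 0 < dot k (v 1 a b) (v 0 x 0)
  r1 : ∀ a b x : Fin n, ¬ (a = b ∨ G.Adj a b) → ¬ (x = a ∨ x = b) → 0 ≤ v 2 a b x
  r2 : ∀ a b : Fin n, ¬ (a = b ∨ G.Adj a b) →
    ∑ x : Fin n, (if x = a ∨ x = b then 0 else v 2 a b x) = 1
  r3 : ∀ a b : Fin n, ¬ (a = b ∨ G.Adj a b) → ∀ j < k + 1, ∑ x : Fin n, v 2 a b x * v 0 x 0 j = 0
  sp : ∀ j < k + 1, ∀ i < k + 1, ∑ a : Fin n, v 3 j 0 a * v 0 a 0 i = if i = j then 1 else 0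
  nu : ∀ a : Fin n, 0 ≤ dot k (v 4 0 0) (v 0 a 0)
  hb : ∃ a : Fin n, dot k (v 4 0 0) (v 0 a 0) = 0
  hn : ∃ a : Fin n, 0 < dot k (v 4 0 0) (v 0 a 0)
  u1 : ∀ a x y : Fin n, G.Adj a x → G.Adj a y → x ≠ y → ¬ (dot k (v 4 0 0) (v 0 a 0) = 0 ∧
    0 < dot k (v 4 0 0) (v 0 x 0) ∧ 0 < dot k (v 4 0 0) (v 0 y 0))
  u2 : ∀ a x y : Fin n, G.Adj a x → G.Adj a y → x ≠ y → ¬ (0 < dot k (v 4 0 0) (v 0 a 0) ∧
    0 < dot k (v 4 0 0) (v 0 x 0) ∧ 0 < dot k (v 4 0 0) (v 0 y 0) ∧
    v 5 0 0 x ≤ v 5 0 0 a ∧ v 5 0 0 y ≤ v 5 0 0 a)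

theorem Cert.sound {n k : ℕ} {G : SimpleGraph (Fin n)} {v : ℕ → ℕ → ℕ → ℕ → ℝ} (h : Cert k G v) :
    ∃ (p : Fin n → Fin k → ℝ) (ν : (ℝ × (Fin k → ℝ)) →ₗ[ℝ] ℝ),
      Tp Finset.univ (fun a => ((1 : ℝ), p a)) ν ∧
        ∀ a b, G.Adj a b ↔ Ed Finset.univ (fun a => ((1 : ℝ), p a)) a b := by
  refine ⟨fun a i => v 0 a 0 (i + 1), lf k (v 4 0 0), ?_⟩
  have e : (fun a : Fin n => ((1 : ℝ), fun i : Fin k => v 0 a 0 (i + 1))) =
      fun a : Fin n => vec k (v 0 a 0) := funext fun a => Prod.ext (h.one a).symm rfl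
  rw [e]
  have hf : ∀ a b : Fin n, (a = b ∨ G.Adj a b) →
      Face univ (fun a : Fin n => vec k (v 0 a 0)) {a, b} := by
    intro a b hab
    refine ⟨lf k (v 1 a b), fun x _ => ?_⟩
    rw [lf_vec]
    by_cases hx : x = a ∨ x = b
    · simpa [h.f0 a b x hab hx] using hx
    · have := h.f1 a b x hab hx
      exact ⟨this.le, fun g => absurd g this.ne', fun g => absurd (by simpa using g) hx⟩
  have hE : ∀ a b, G.Adj a b ↔ Ed univ (fun a : Fin n => vec k (v 0 a 0)) a b := by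
    intro a b
    refine ⟨fun g => ⟨mem_univ _, mem_univ _, g.ne, hf a b (Or.inr g)⟩, fun g => ?_⟩
    by_contra hn
    have hab : ¬ (a = b ∨ G.Adj a b) := fun g' => g'.elim g.2.2.1 hn
    obtain ⟨φ, -, h1, h2, h3⟩ := g.fn
    have h4 : ∑ x : Fin n, v 2 a b x • vec k (v 0 x 0) = 0 := by
      simp only [← map_smul, ← map_sum]
      rw [← map_zero (vec k)]
      refine vec_eq.2 fun j hj => ?_
      simpa [Finset.sum_apply] using h.r3 a b hab j hj
    have h5 := congrArg φ h4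
    simp only [map_sum, map_smul, smul_eq_mul, map_zero] at h5
    have h6 : ∀ x : Fin n, 0 ≤ v 2 a b x * φ (vec k (v 0 x 0)) := by
      intro x
      by_cases hx : x = a ∨ x = b
      · rcases hx with rfl | rfl
        · simp [h1]
        · simp [h2]
      · exact mul_nonneg (h.r1 a b x hab hx)
          (h3 x (mem_univ _) (fun g => hx (Or.inl g)) fun g => hx (Or.inr g)).le
    have h7 := (sum_eq_zero_iff_of_nonneg fun x _ => h6 x).1 h5
    have h8 := h.r2 a b hab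
    rw [sum_eq_zero] at h8
    · exact zero_ne_one h8
    · intro x _
      split_ifs with hx
      · rfl
      · exact (mul_eq_zero.1 (h7 x (mem_univ _))).resolve_right
          (h3 x (mem_univ _) (fun g => hx (Or.inl g)) fun g => hx (Or.inr g)).ne'
  have hv : Vx univ (fun a : Fin n => vec k (v 0 a 0)) := fun a _ =>
    (hf a a (Or.inl rfl)).congr fun x _ => by simp
  have hν : H27.Valid univ (fun a : Fin n => vec k (v 0 a 0)) (lf k (v 4 0 0)) := fun a _ => by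
    rw [lf_vec]; exact h.nu a
  refine ⟨⟨hv, hν, tp_of_cert hv hν (fun a => v 5 0 0 a) ?_ ?_, ?_, ?_, ?_⟩, hE⟩
  · intro a x y h1 h2 h3 h4 h5
    by_contra hne
    simp only [lf_vec] at h1 h4 h5
    exact h.u1 a x y ((hE _ _).2 h2) ((hE _ _).2 h3) hne ⟨h1, h4, h5⟩
  · intro a x y h1 h2 h3 h4 h5 h6 h7
    by_contra hne
    simp only [lf_vec] at h1 h4 h5
    exact h.u2 a x y ((hE _ _).2 h2) ((hE _ _).2 h3) hne ⟨h1, h4, h5, h6, h7⟩
  · rw [eq_top_iff]
    intro z _
    obtain ⟨u, rfl⟩ := vec_surj z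
    rw [vec_basis]
    refine Submodule.sum_mem _ fun j hj => Submodule.smul_mem _ _ ?_
    have : (vec k fun i => if i = j then 1 else 0) = ∑ a : Fin n, v 3 j 0 a • vec k (v 0 a 0) := by
      simp only [← map_smul, ← map_sum]
      refine vec_eq.2 fun i hi => ?_
      simpa [Finset.sum_apply] using (h.sp j (mem_range.1 hj) i hi).symm
    rw [this]
    exact Submodule.sum_mem _ fun a _ => Submodule.smul_mem _ _
      (Submodule.subset_span ⟨a, by simp, rfl⟩)
  · obtain ⟨a, ha⟩ := h.hb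
    exact ⟨a, mem_univ _, by rw [lf_vec]; exact ha⟩
  · obtain ⟨a, ha⟩ := h.hn
    exact ⟨a, mem_univ _, by rw [lf_vec]; exact ha⟩

/-- extension by zero -/
def ext0 {n : ℕ} {β : Type} [Zero β] (f : Fin n → β) (i : ℕ) : β := if h : i < n then f ⟨i, h⟩ else 0

@[simp] theorem ext0_val {n : ℕ} {β : Type} [Zero β] (f : Fin n → β) (i : Fin n) :
    ext0 f i = f i := by simp [ext0]

theorem cert_complete {n k : ℕ} {G : SimpleGraph (Fin n)} {p : Fin n → Fin k → ℝ}
    {ν : (ℝ × (Fin k → ℝ)) →ₗ[ℝ] ℝ} (h : Tp Finset.univ (fun a => ((1 : ℝ), p a)) ν)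
    (hE : ∀ a b, G.Adj a b ↔ Ed Finset.univ (fun a => ((1 : ℝ), p a)) a b) :
    k < n ∧ ∃ v, Cert k G v := by
  classical
  choose P hP using fun a : Fin n => vec_surj ((1 : ℝ), p a)
  have e : (fun a : Fin n => ((1 : ℝ), p a)) = fun a => vec k (P a) := funext fun a => (hP a).symm
  rw [e] at h hE
  have h0 : ∀ a, P a 0 = 1 := fun a => congrArg Prod.fst (hP a)
  constructor
  · have h1 := finrank_span_finset_le_card (R := ℝ) (univ.image fun a : Fin n => vec k (P a))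
    rw [Set.finrank, coe_image, h.sp, finrank_top] at h1
    have h2 := card_image_le (s := univ) (f := fun a : Fin n => vec k (P a))
    simp at h1 h2
    omega
  have h1 : ∀ a b : Fin n, ∃ w : ℕ → ℝ, (a = b ∨ G.Adj a b) → ∀ x,
      ((x = a ∨ x = b) → dot k w (P x) = 0) ∧ (¬ (x = a ∨ x = b) → 0 < dot k w (P x)) := by
    intro a b
    by_cases hab : a = b ∨ G.Adj a b
    · have : Face univ (fun a => vec k (P a)) {a, b} := by
        rcases hab with rfl | g
        · exact (h.vx a (mem_univ _)).congr fun x _ => by simp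
        · exact ((hE a b).1 g).2.2.2
      obtain ⟨φ, -, g1, g2⟩ := this.fn
      obtain ⟨w, hw⟩ := lf_surj φ
      exact ⟨w, fun _ x => ⟨fun g => hw _ ▸ g1 x (mem_univ _) g, fun g => hw _ ▸ g2 x (mem_univ _) g⟩⟩
    · exact ⟨0, fun g => absurd g hab⟩
  choose W hW using h1
  have h2 : ∀ a b : Fin n, ∃ c : Fin n → ℝ, ¬ (a = b ∨ G.Adj a b) →
      (∀ x, ¬ (x = a ∨ x = b) → 0 ≤ c x) ∧ ∑ x, (if x = a ∨ x = b then 0 else c x) = 1 ∧
        ∀ j < k + 1, ∑ x, c x * P x j = 0 := by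
    intro a b
    by_cases hab : a = b ∨ G.Adj a b
    · exact ⟨0, fun g => absurd hab g⟩
    have hne : a ≠ b := fun g => hab (Or.inl g)
    rcases face_or_rel univ (fun a => vec k (P a)) {a, b} (univ.filter fun x => ¬ (x = a ∨ x = b))
      (by simp) with g | ⟨c, g1, g2, g3⟩
    · exact absurd (Or.inr ((hE a b).2 ⟨mem_univ _, mem_univ _, hne, g⟩)) hab
    have g4 : (fun a => vec k (P a)) '' (((univ : Finset (Fin n)) : Set (Fin n)) ∩ {a, b}) =
        {vec k (P a), vec k (P b)} := by simp [Set.image_insert_eq]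
    rw [g4] at g3
    obtain ⟨s, t, g5⟩ := Submodule.mem_span_pair.1 g3
    refine ⟨fun x => (if x = a ∨ x = b then 0 else c x) - (if x = a then s else 0) -
      (if x = b then t else 0), fun _ => ⟨fun x hx => ?_, ?_, fun j hj => ?_⟩⟩
    · rw [not_or] at hx
      simp [hx.1, hx.2, g1]
    · rw [← g2, sum_filter]
      refine sum_congr rfl fun x _ => ?_
      by_cases hx : x = a ∨ x = b
      · simp [hx]
      · have := not_or.1 hx
        simp [this.1, this.2]
    · simp only [← map_smul, ← map_sum, ← map_add] at g5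
      have g6 := vec_eq.1 g5 j hj
      simp only [Pi.add_apply, Pi.smul_apply, smul_eq_mul, Finset.sum_apply, sum_filter] at g6
      simp only [sub_mul, sum_sub_distrib, ite_mul, zero_mul, sum_ite_eq', mem_univ, if_true]
      have g7 : ∑ x, (if x = a ∨ x = b then 0 else c x * P x j) =
          ∑ x, (if ¬ (x = a ∨ x = b) then c x * P x j else 0) :=
        sum_congr rfl fun x _ => by by_cases hx : x = a ∨ x = b <;> simp [hx]
      rw [g7, ← g6]
      ring
  choose C hC using h2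
  have h3 : ∀ j : ℕ, ∃ A : Fin n → ℝ, ∀ i < k + 1,
      ∑ a, A a * P a i = if i = j then 1 else 0 := by
    intro j
    have : (vec k fun i => if i = j then 1 else 0) ∈
        Submodule.span ℝ (Set.range fun a => vec k (P a)) := by
      have := h.sp
      rw [coe_univ, Set.image_univ] at this
      rw [this]; trivial
    obtain ⟨A, hA⟩ := (Submodule.mem_span_range_iff_exists_fun ℝ).1 this
    simp only [← map_smul, ← map_sum] at hA
    exact ⟨A, fun i hi => by simpa [Finset.sum_apply] using vec_eq.1 hA i hi⟩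
  choose A hA using h3
  obtain ⟨N, hN⟩ := lf_surj ν
  obtain ⟨ρ, hρ⟩ := h.rank
  refine ⟨fun t a b => match t with
    | 0 => ext0 P a
    | 1 => ext0 (fun a => ext0 (W a) b) a
    | 2 => ext0 (fun a => ext0 (fun b => ext0 (C a b)) b) a
    | 3 => ext0 (A a)
    | 4 => N
    | _ => ext0 ρ, ?_⟩
  constructor <;> simp only [ext0_val]
  · exact h0
  · exact fun a b x g1 g2 => (hW a b g1 x).1 g2
  · exact fun a b x g1 g2 => (hW a b g1 x).2 g2
  · exact fun a b x g1 g2 => (hC a b g1).1 x g2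
  · exact fun a b g1 => (hC a b g1).2.1
  · exact fun a b g1 => (hC a b g1).2.2
  · exact fun j _ => hA j
  · exact fun a => hN _ ▸ h.nu a (mem_univ _)
  · obtain ⟨a, -, ha⟩ := h.hb
    exact ⟨a, hN _ ▸ ha⟩
  · obtain ⟨a, -, ha⟩ := h.hn
    exact ⟨a, hN _ ▸ ha⟩
  · rintro a x y g1 g2 g3 ⟨g4, g5, g6⟩
    rw [← hN] at g4 g5 g6
    exact g3 (h.up_unique g4 ((hE _ _).1 g1) ((hE _ _).1 g2) g5 g6)
  · rintro a x y g1 g2 g3 ⟨g4, g5, g6, g7, g8⟩
    rw [← hN] at g4 g5 g6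
    exact g3 (hρ a x y g4 ((hE _ _).1 g1) ((hE _ _).1 g2) g5 g6 g7 g8)

end Pool.Agent.MP_26cd3b_lc.H89
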