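import Pool.Agent.MP_26cd3b_lc.H27.Defs
import Pool.Agent.MP_26cd3b_lc.H89.Cert
import Pool.Agent.MP_aca74d_lc.H29.Run
import Pool.Agent.Shared.H56.Decode

/-!
The recognition of treetope graphs reduces to the existential theory of the reals.
-/

set_option autoImplicit false

namespace Pool.Agent.MP_26cd3b_lc.H89

open Pool.Agent.Shared.H56 Pool.Agent.MP_aca74d_lc.H29 Pool.Agent.MP_26cd3b_lc.H27

instance termCode : N487b59b3 Term :=
  N487b59b3.ofLeftInverse Term.code (fun L => (parse L).map fun st => (st.headD dT).tm)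
    fun t => by rw [parse, run_term]; rfl

instance formulaCode : N487b59b3 Formula :=
  N487b59b3.ofLeftInverse Formula.code (fun L => (parse L).map fun st => (st.headD dT).fm)
    fun φ => by rw [parse_code]; rfl

variable {α : Type} [N487b59b3 α]

theorem pt_tcode {t : α → Term} : PT t ↔ PT fun a => (t a).code := Iff.rfl
theorem pt_fcode {t : α → Formula} : PT t ↔ PT fun a => (t a).code := Iff.rfl

@[fun_prop] theorem pt_tvar {i : α → ℕ} (h : PT i) : PT fun a => Term.var (i a) := by
  rw [pt_tcode]; simp only [Term.code]; fun_prop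

@[fun_prop] theorem pt_tadd {s t : α → Term} (hs : PT s) (ht : PT t) :
    PT fun a => Term.add (s a) (t a) :=
  pt_tcode.2 (((pt_tcode.1 hs).append (pt_tcode.1 ht)).append (PT.const _))

@[fun_prop] theorem pt_tmul {s t : α → Term} (hs : PT s) (ht : PT t) :
    PT fun a => Term.mul (s a) (t a) :=
  pt_tcode.2 (((pt_tcode.1 hs).append (pt_tcode.1 ht)).append (PT.const _))

@[fun_prop] theorem pt_feq {s t : α → Term} (hs : PT s) (ht : PT t) :
    PT fun a => Formula.eq (s a) (t a) :=
  pt_fcode.2 (((pt_tcode.1 hs).append (pt_tcode.1 ht)).append (PT.const _))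

@[fun_prop] theorem pt_flt {s t : α → Term} (hs : PT s) (ht : PT t) :
    PT fun a => Formula.lt (s a) (t a) :=
  pt_fcode.2 (((pt_tcode.1 hs).append (pt_tcode.1 ht)).append (PT.const _))

@[fun_prop] theorem pt_fle {s t : α → Term} (hs : PT s) (ht : PT t) :
    PT fun a => Formula.le (s a) (t a) :=
  pt_fcode.2 (((pt_tcode.1 hs).append (pt_tcode.1 ht)).append (PT.const _))

@[fun_prop] theorem pt_fnot {s : α → Formula} (hs : PT s) : PT fun a => Formula.not (s a) :=
  pt_fcode.2 ((pt_fcode.1 hs).append (PT.const _))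

@[fun_prop] theorem pt_fand {s t : α → Formula} (hs : PT s) (ht : PT t) :
    PT fun a => Formula.and (s a) (t a) :=
  pt_fcode.2 (((pt_fcode.1 hs).append (pt_fcode.1 ht)).append (PT.const _))

def ftrue : Formula := .le (.const 0) (.const 0)
def ffalse : Formula := .lt (.const 0) (.const 0)

def conj (l : List Formula) : Formula := l.foldl .and ftrue

theorem conj_code (l : List Formula) : ∀ ψ : Formula, (l.foldl .and ψ).code =
    ψ.code ++ l.flatMap fun φ => φ.code ++ [(8, 0)] := by
  induction l with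
  | nil => simp
  | cons φ l ih => intro ψ; simp [ih, Formula.code]

theorem foldl_holds (x : ℕ → ℝ) (l : List Formula) : ∀ ψ : Formula, (l.foldl .and ψ).Holds x ↔
    ψ.Holds x ∧ ∀ φ ∈ l, φ.Holds x := by
  induction l with
  | nil => simp
  | cons φ l ih => intro ψ; simp [ih, Formula.Holds, and_assoc]

theorem ftrue_holds (x : ℕ → ℝ) : ftrue.Holds x := by simp [ftrue, Formula.Holds]

theorem ffalse_holds (x : ℕ → ℝ) : ¬ ffalse.Holds x := by simp [ffalse, Formula.Holds]

@[fun_prop] theorem pt_conj {l : α → List Formula} (h : PT l) : PT fun a => conj (l a) := by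
  rw [pt_fcode]
  simp only [conj, conj_code]
  exact (PT.const _).append (PT.flatMap ((pt_fcode.1 PT.id'.snd).append (PT.const _)) h)

def tsum (l : List Term) : Term := l.foldl .add (.const 0)

theorem tsum_code (l : List Term) : ∀ s : Term, (l.foldl .add s).code =
    s.code ++ l.flatMap fun t => t.code ++ [(2, 0)] := by
  induction l with
  | nil => simp
  | cons φ l ih => intro ψ; simp [ih, Term.code]

theorem foldl_eval (x : ℕ → ℝ) (l : List Term) : ∀ s : Term, (l.foldl .add s).eval x =
    s.eval x + (l.map (Term.eval x)).sum := by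
  induction l with
  | nil => simp
  | cons φ l ih => intro ψ; simp [ih, Term.eval, add_assoc]

@[fun_prop] theorem pt_tsum {l : α → List Term} (h : PT l) : PT fun a => tsum (l a) := by
  rw [pt_tcode]
  simp only [tsum, tsum_code]
  exact (PT.const _).append (PT.flatMap ((pt_tcode.1 PT.id'.snd).append (PT.const _)) h)

/-- a conjunction over a list of indices -/
def allF (l : List ℕ) (f : ℕ → Formula) : Formula := conj (l.map f)

/-- a sum over a list of indices -/
def sumT (l : List ℕ) (f : ℕ → Term) : Term := tsum (l.map f)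

@[fun_prop] theorem pt_allF {l : α → List ℕ} {f : α → ℕ → Formula}
    (hf : PT fun p : α × ℕ => f p.1 p.2) (hl : PT l) : PT fun a => allF (l a) (f a) :=
  pt_conj (PT.map hf hl)

@[fun_prop] theorem pt_sumT {l : α → List ℕ} {f : α → ℕ → Term}
    (hf : PT fun p : α × ℕ => f p.1 p.2) (hl : PT l) : PT fun a => sumT (l a) (f a) :=
  pt_tsum (PT.map hf hl)

theorem allF_holds (x : ℕ → ℝ) (n : ℕ) (f : ℕ → Formula) :
    (allF (List.range n) f).Holds x ↔ ∀ i < n, (f i).Holds x := by
  simp [allF, conj, foldl_holds, ftrue_holds]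

theorem allF_fin (x : ℕ → ℝ) (n : ℕ) (f : ℕ → Formula) :
    (allF (List.range n) f).Holds x ↔ ∀ i : Fin n, (f i).Holds x := by
  rw [allF_holds, Fin.forall_iff]

theorem sumT_eval (x : ℕ → ℝ) (n : ℕ) (f : ℕ → Term) :
    (sumT (List.range n) f).eval x = ∑ i ∈ Finset.range n, (f i).eval x := by
  rw [sumT, tsum, foldl_eval, List.map_map]
  simp only [Term.eval, Int.cast_zero, zero_add]
  rfl

theorem sumT_fin (x : ℕ → ℝ) (n : ℕ) (f : ℕ → Term) :
    (sumT (List.range n) f).eval x = ∑ i : Fin n, (f i).eval x := by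
  rw [sumT_eval, Finset.sum_range]

def idx (t a b c : ℕ) : ℕ := Nat.pair t (Nat.pair a (Nat.pair b c))

def vr (t a b c : ℕ) : Term := .var (idx t a b c)

@[fun_prop] theorem pt_vr {t u v w : α → ℕ} (ht : PT t) (hu : PT u) (hv : PT v) (hw : PT w) :
    PT fun a => vr (t a) (u a) (v a) (w a) := by
  unfold vr idx; fun_prop

def dotT (K : List ℕ) (t a b x : ℕ) : Term := sumT K fun j => .mul (vr t a b j) (vr 0 x 0 j)

@[fun_prop] theorem pt_dotT {K : α → List ℕ} {t u v w : α → ℕ} (hK : PT K) (ht : PT t) (hu : PT u)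
    (hv : PT v) (hw : PT w) : PT fun a => dotT (K a) (t a) (u a) (v a) (w a) := by
  unfold dotT; fun_prop

theorem dotT_eval (x : ℕ → ℝ) (k t a b c : ℕ) : (dotT (List.range (k + 1)) t a b c).eval x =
    dot k (fun j => x (idx t a b j)) fun j => x (idx 0 c 0 j) := by
  rw [dotT, sumT_eval]; rfl

/-- adjacency read from the bit string -/
def adjB (x : List Bool) (n i j : ℕ) : Bool :=
  decide (i ≠ j) && (x.getD (i * n + j) false || x.getD (j * n + i) false)

@[fun_prop] theorem pt_adjB {w : α → List Bool} {n i j : α → ℕ} (hw : PT w) (hn : PT n) (hi : PT i)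
    (hj : PT j) : PT fun a => adjB (w a) (n a) (i a) (j a) := by
  unfold adjB; fun_prop

theorem adjB_iff (x : List Bool) (i j : Fin (Nat.sqrt x.length)) :
    adjB x (Nat.sqrt x.length) i.1 j.1 = true ↔ (graphOf x).Adj i j := by
  simp [adjB, graphOf, SimpleGraph.fromRel_adj, Fin.ext_iff]

/-- an implication with a decidable premise -/
def whenF (b : Bool) (φ : Formula) : Formula := bif b then φ else ftrue

@[fun_prop] theorem pt_whenF {b : α → Bool} {φ : α → Formula} (hb : PT b) (hφ : PT φ) :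
    PT fun a => whenF (b a) (φ a) := by
  unfold whenF; fun_prop

theorem whenF_holds (x : ℕ → ℝ) (b : Bool) (φ : Formula) :
    (whenF b φ).Holds x ↔ (b = true → φ.Holds x) := by
  cases b <;> simp [whenF, ftrue_holds]

def c0 : Term := .const 0
def c1 : Term := .const 1

def eaB (w : List Bool) (n a b : ℕ) : Bool := decide (a = b) || adjB w n a b

def inB (a b x : ℕ) : Bool := decide (x = a) || decide (x = b)

def g0 (L : List ℕ) : Formula := allF L fun a => .eq (vr 0 a 0 0) c1
def g1 (w : List Bool) (n : ℕ) (L K : List ℕ) : Formula :=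
  allF L fun a => allF L fun b => allF L fun x =>
    whenF (eaB w n a b) (whenF (inB a b x) (.eq (dotT K 1 a b x) c0))
def g2 (w : List Bool) (n : ℕ) (L K : List ℕ) : Formula :=
  allF L fun a => allF L fun b => allF L fun x =>
    whenF (eaB w n a b) (whenF (!inB a b x) (.lt c0 (dotT K 1 a b x)))
def g3 (w : List Bool) (n : ℕ) (L : List ℕ) : Formula :=
  allF L fun a => allF L fun b => allF L fun x =>
    whenF (!eaB w n a b) (whenF (!inB a b x) (.le c0 (vr 2 a b x)))
def g4 (w : List Bool) (n : ℕ) (L : List ℕ) : Formula :=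
  allF L fun a => allF L fun b =>
    whenF (!eaB w n a b) (.eq (sumT L fun x => bif inB a b x then c0 else vr 2 a b x) c1)
def g5 (w : List Bool) (n : ℕ) (L K : List ℕ) : Formula :=
  allF L fun a => allF L fun b =>
    whenF (!eaB w n a b) (allF K fun j => .eq (sumT L fun x => .mul (vr 2 a b x) (vr 0 x 0 j)) c0)
def g6 (L K : List ℕ) : Formula :=
  allF K fun j => allF K fun i =>
    .eq (sumT L fun a => .mul (vr 3 j 0 a) (vr 0 a 0 i)) (if i = j then c1 else c0)
def g7 (L K : List ℕ) : Formula := allF L fun a => .le c0 (dotT K 4 0 0 a)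
def g8 (L K : List ℕ) : Formula := .not (allF L fun a => .not (.eq (dotT K 4 0 0 a) c0))
def g9 (L K : List ℕ) : Formula := .not (allF L fun a => .not (.lt c0 (dotT K 4 0 0 a)))
def g10 (w : List Bool) (n : ℕ) (L K : List ℕ) : Formula :=
  allF L fun a => allF L fun x => allF L fun y =>
    whenF (adjB w n a x) (whenF (adjB w n a y) (whenF (decide (x ≠ y))
      (.not (.and (.eq (dotT K 4 0 0 a) c0) (.and (.lt c0 (dotT K 4 0 0 x))
        (.lt c0 (dotT K 4 0 0 y)))))))
def g11 (w : List Bool) (n : ℕ) (L K : List ℕ) : Formula :=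
  allF L fun a => allF L fun x => allF L fun y =>
    whenF (adjB w n a x) (whenF (adjB w n a y) (whenF (decide (x ≠ y))
      (.not (.and (.lt c0 (dotT K 4 0 0 a)) (.and (.lt c0 (dotT K 4 0 0 x))
        (.and (.lt c0 (dotT K 4 0 0 y)) (.and (.le (vr 5 0 0 x) (vr 5 0 0 a))
          (.le (vr 5 0 0 y) (vr 5 0 0 a)))))))))

def certF (w : List Bool) (n : ℕ) (L K : List ℕ) : Formula :=
  .and (g0 L) (.and (g1 w n L K) (.and (g2 w n L K) (.and (g3 w n L) (.and (g4 w n L)
    (.and (g5 w n L K) (.and (g6 L K) (.and (g7 L K) (.and (g8 L K) (.and (g9 L K)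
      (.and (g10 w n L K) (g11 w n L K)))))))))))

theorem pt_certF {w : α → List Bool} {n : α → ℕ} {L K : α → List ℕ} (hw : PT w) (hn : PT n)
    (hL : PT L) (hK : PT K) : PT fun a => certF (w a) (n a) (L a) (K a) := by
  refine pt_fand ?_ (pt_fand ?_ (pt_fand ?_ (pt_fand ?_ (pt_fand ?_ (pt_fand ?_ (pt_fand ?_
    (pt_fand ?_ (pt_fand ?_ (pt_fand ?_ (pt_fand ?_ ?_))))))))))
  · unfold g0; fun_prop
  · unfold g1 eaB inB; fun_prop
  · unfold g2 eaB inB; fun_prop
  · unfold g3 eaB inB; fun_prop
  · unfold g4 eaB inB; fun_prop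
  · unfold g5 eaB; fun_prop
  · unfold g6; fun_prop
  · unfold g7; fun_prop
  · unfold g8; fun_prop
  · unfold g9; fun_prop
  · unfold g10; fun_prop
  · unfold g11; fun_prop

theorem certF_holds (w : List Bool) (k : ℕ) (x : ℕ → ℝ) :
    (certF w (Nat.sqrt w.length) (List.range (Nat.sqrt w.length)) (List.range (k + 1))).Holds x ↔
      Cert k (graphOf w) fun t a b c => x (idx t a b c) := by
  have e1 : ∀ a b : Fin (Nat.sqrt w.length),
      eaB w (Nat.sqrt w.length) a b = true ↔ a = b ∨ (graphOf w).Adj a b := by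
    intro a b; simp [eaB, adjB_iff, Fin.ext_iff]
  have e2 : ∀ a b c : Fin (Nat.sqrt w.length), inB a b c = true ↔ c = a ∨ c = b := by
    intro a b c; simp [inB, Fin.ext_iff]
  have e3 : ∀ (a b c : Fin (Nat.sqrt w.length)), (bif inB a b c then c0 else vr 2 a b c).eval x =
      if c = a ∨ c = b then 0 else x (idx 2 a b c) := by
    intro a b c
    simp only [← e2]
    cases inB a b c <;> simp [c0, vr, Term.eval]
  have e4 : ∀ i j : ℕ, (if i = j then c1 else c0).eval x = if i = j then 1 else 0 := by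
    intro i j
    split_ifs <;> simp [c0, c1, Term.eval]
  have e5 : c0.eval x = 0 := by simp [c0, Term.eval]
  have e6 : c1.eval x = 1 := by simp [c1, Term.eval]
  have e7 : ∀ t a b c, (vr t a b c).eval x = x (idx t a b c) := fun _ _ _ _ => rfl
  have e8 : ∀ f, (allF (List.range (k + 1)) f).Holds x ↔ ∀ i < k + 1, (f i).Holds x :=
    allF_holds x _
  have e9 : ∀ f, (allF (List.range (Nat.sqrt w.length)) f).Holds x ↔
      ∀ i : Fin (Nat.sqrt w.length), (f i).Holds x := allF_fin x _
  simp only [certF, g0, g1, g2, g3, g4, g5, g6, g7, g8, g9, g10, g11, Formula.Holds, e8, e9,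
    whenF_holds, Bool.not_eq_eq_eq_not, Bool.not_true, ← Bool.not_eq_true, e1, e2, dotT_eval,
    sumT_fin, e3, e4, e5, e6, e7, Term.eval, adjB_iff, decide_eq_true_eq, not_forall, not_not,
    ne_eq, Fin.val_inj]
  exact ⟨fun ⟨h0, h1, h2, h3, h4, h5, h6, h7, h8, h9, h10, h11⟩ =>
    ⟨h0, h1, h2, h3, h4, h5, h6, h7, h8, h9, h10, h11⟩,
    fun ⟨h0, h1, h2, h3, h4, h5, h6, h7, h8, h9, h10, h11⟩ =>
    ⟨h0, h1, h2, h3, h4, h5, h6, h7, h8, h9, h10, h11⟩⟩

theorem sqrt_eq_count (m : ℕ) :
    ((List.range m).filter fun k => decide ((k + 1) * (k + 1) ≤ m)).length = Nat.sqrt m := by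
  have h1 : ((List.range m).filter fun k => decide ((k + 1) * (k + 1) ≤ m)) =
      List.range (Nat.sqrt m) := by
    have h2 := Nat.sqrt_le_self m
    obtain ⟨t, ht⟩ : ∃ t, m = Nat.sqrt m + t := ⟨m - Nat.sqrt m, by omega⟩
    conv_lhs => rw [ht, List.range_add, List.filter_append, ← ht]
    rw [List.filter_eq_self.2, List.filter_eq_nil_iff.2, List.append_nil]
    · intro k hk
      obtain ⟨j, -, rfl⟩ := List.mem_map.1 hk
      simp only [decide_eq_true_eq, ← Nat.le_sqrt]
      omega
    · intro k hk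
      simp only [decide_eq_true_eq, ← Nat.le_sqrt]
      exact List.mem_range.1 hk
  rw [h1, List.length_range]

/-- the formula for the dimension `k` and the string `w` -/
def toF (k : ℕ) (w : List Bool) : Formula :=
  if k < Nat.sqrt w.length then certF w (Nat.sqrt w.length) (List.range (Nat.sqrt w.length))
    (List.range (min (k + 1) (Nat.sqrt w.length))) else ffalse

theorem pt_toF {k : α → ℕ} {w : α → List Bool} (hk : PT k) (hw : PT w) :
    PT fun a => toF (k a) (w a) := by
  have hsq : PT fun a => un (Nat.sqrt (w a).length) := by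
    simp only [← sqrt_eq_count]
    fun_prop
  have h1 : PT fun a => k a + 1 := by fun_prop
  exact PT.ite (hk.decLt hsq.of_un) (pt_certF hw hsq.of_un hsq.range
    ((h1.min hsq.of_un).un_of_le hsq fun _ => min_le_right _ _).range) (PT.const _)

/-- the statement of the bridge between treetopes and their cones -/
def Bridge : Prop := ∀ (k : ℕ), 2 ≤ k → ∀ {V : Type} [Fintype V] (G : SimpleGraph V),
  IsTreetopeGraph k G ↔ ∃ (p : V → Fin k → ℝ) (ν : (ℝ × (Fin k → ℝ)) →ₗ[ℝ] ℝ),
    Tp Finset.univ (fun a => ((1 : ℝ), p a)) ν ∧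
      ∀ a b, G.Adj a b ↔ Ed Finset.univ (fun a => ((1 : ℝ), p a)) a b

theorem toF_iff (hbr : Bridge) {k : ℕ} (hk : 2 ≤ k) (w : List Bool) :
    (∃ x : ℕ → ℝ, (toF k w).Holds x) ↔ IsTreetopeGraph k (graphOf w) := by
  rw [hbr k hk]
  unfold toF
  constructor
  · rintro ⟨x, hx⟩
    split_ifs at hx with h
    · rw [min_eq_left h, certF_holds] at hx
      exact hx.sound
    · exact absurd hx (ffalse_holds x)
  · rintro ⟨p, ν, h1, h2⟩
    obtain ⟨h3, v, hv⟩ := cert_complete h1 h2
    refine ⟨fun m => v m.unpair.1 m.unpair.2.unpair.1 m.unpair.2.unpair.2.unpair.1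
      m.unpair.2.unpair.2.unpair.2, ?_⟩
    rw [if_pos h3, min_eq_left h3, certF_holds]
    simpa only [idx, Nat.unpair_pair] using hv

theorem member_fixed (hbr : Bridge) (k : ℕ) (hk : 2 ≤ k) : treetopeLang k ∈ ExistsR := by
  refine ⟨fun w => N487b59b3.bitEncode (toF k w).code,
    (pt_fcode.1 (pt_toF (PT.const k) PT.id')).bitEncode.isPolyTime, fun w => ?_⟩
  rw [Bool.eq_iff_iff, ETR_code, toF_iff hbr hk]
  simp [treetopeLang]

theorem member_in (hbr : Bridge) : treetopeLangIn ∈ ExistsR := by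
  let q : List Bool → ℕ × List Bool := fun w => (N487b59b3.bitDecode w).getD (0, [])
  have hq : PT q := PT.decode_getD PT.id' (PT.const _)
  have hq' : ∀ z : ℕ × List Bool, q (N487b59b3.bitEncode z) = z := fun z => by
    simp [q, N487b59b3.bitDecode_bitEncode]
  let F : List Bool → Formula := fun w =>
    if w = N487b59b3.bitEncode (q w) ∧ 5 ≤ (q w).1 then toF (q w).1 (q w).2 else ffalse
  have hF : PT F := PT.ite (by fun_prop) (pt_toF hq.fst hq.snd) (PT.const _)
  refine ⟨fun w => N487b59b3.bitEncode (F w).code, (pt_fcode.1 hF).bitEncode.isPolyTime,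
    fun w => ?_⟩
  rw [Bool.eq_iff_iff, ETR_code]
  simp only [treetopeLangIn, decide_eq_true_eq, F]
  constructor
  · rintro ⟨k, x, rfl, h1, h2⟩
    rw [hq', if_pos ⟨rfl, h1⟩]
    exact (toF_iff hbr (by omega) x).2 h2
  · rintro ⟨x, hx⟩
    split_ifs at hx with h
    · exact ⟨(q w).1, (q w).2, h.1, h.2,
        (toF_iff hbr (le_trans (by norm_num) h.2) _).1 ⟨x, hx⟩⟩
    · exact absurd hx (ffalse_holds x)

end Pool.Agent.MP_26cd3b_lc.H89
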